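import Pool.Agent.H29.BH.Targets1

/-!
# The oscillatory integral of two points
-/

set_option autoImplicit false

open MeasureTheory Set Filter Complex
open scoped ENNReal

namespace Pool.Agent.H42.BH

open Pool.Agent.H29.BH
open Pool.Agent.H29.DW (dg Rl)

section Gen

variable {E : Type*} [NormedAddCommGroup E] [NormedSpace ℝ E] [MeasurableSpace E] [BorelSpace E]
  [FiniteDimensional ℝ E]

private lemma int_line_zero (ν : Measure E) [ν.IsAddHaarMeasure] (F F' : E → ℂ) (v : E)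
    (h : ∀ x, HasLineDerivAt ℝ F (F' x) x v) (hi : Integrable F ν) (hi' : Integrable F' ν) :
    ∫ x, F' x ∂ν = 0 := by
  have := integral_bilinear_hasLineDerivAt_right_eq_neg_left_of_integrable (μ := ν)
    (f := fun _ => (1 : ℝ)) (f' := fun _ => (0 : ℝ)) (g := F) (g' := F') (v := v)
    (B := ContinuousLinearMap.lsmul ℝ ℝ) (by simp) (by simpa using hi') (by simpa using hi)
    (fun x _ => by
      have := hasDerivAt_const (0 : ℝ) (1 : ℝ)
      exact this) (fun x _ => h x)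
  simpa using this

omit [BorelSpace E] in
private lemma int_bd (ν : Measure E) [ν.IsAddHaarMeasure] (F : E → ℂ) (K : ℝ)
    (hm : AEStronglyMeasurable F ν) (hb : ∀ x, ‖F x‖ ≤ K) (hs : ∀ x, F x ≠ 0 → ‖x‖ ≤ 3) :
    Integrable F ν ∧ ‖∫ x, F x ∂ν‖ ≤ K * (ν (Metric.closedBall (0 : E) 3)).toReal := by
  have hK : 0 ≤ K := (norm_nonneg _).trans (hb 0)
  have hf : ν (Metric.closedBall (0 : E) 3) < ⊤ := measure_closedBall_lt_top
  have hsub : Function.support F ⊆ Metric.closedBall (0 : E) 3 := by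
    intro x hx
    simpa using hs x hx
  have hI : IntegrableOn F (Metric.closedBall (0 : E) 3) ν :=
    Measure.integrableOn_of_bounded hf.ne hm (M := K) (Eventually.of_forall hb)
  refine ⟨(integrableOn_iff_integrable_of_support_subset hsub).1 hI, ?_⟩
  rw [← setIntegral_eq_integral_of_forall_compl_eq_zero (s := Metric.closedBall (0 : E) 3)
    (fun x hx => by
      by_contra h
      exact hx (hsub h))]
  exact norm_setIntegral_le_of_norm_le_const hf (fun x _ => hb x)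

end Gen

/-- the real linear map of the logarithm of a quasi-character -/
noncomputable def TL (k : ℤ) (μ : ℂ) : ℂ →L[ℝ] ℂ :=
  (I * (k : ℂ)) • (ofRealCLM.comp imCLM) + μ • (ofRealCLM.comp reCLM)

private lemma TL_apply (k : ℤ) (μ c : ℂ) :
    TL k μ c = I * (k : ℂ) * (c.im : ℂ) + μ * (c.re : ℂ) := by
  simp [TL]

private lemma Gm_eq (k : ℤ) (μ w : ℂ) (hw : w ≠ 0) :
    Gm k μ w = cexp (TL k μ (Complex.log w)) := by
  rw [TL_apply]
  unfold Gm
  rw [Complex.log_im, Complex.log_re]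
  have h0 : ((‖w‖ : ℝ) : ℂ) ≠ 0 := by simpa using hw
  have h1 : w / ((‖w‖ : ℝ) : ℂ) = cexp (w.arg * I) := by
    have := Complex.norm_mul_exp_arg_mul_I w
    rw [div_eq_iff h0, mul_comm]
    exact this.symm
  rw [h1, ← Complex.exp_int_mul, ← Complex.exp_add]
  congr 1
  ring

private lemma basic {b z : ℂ} (hb : ‖b‖ ≤ 1 / 8) (hz : 1 / 4 < ‖z‖) :
    z ≠ 0 ∧ z + b ≠ 0 ∧ 1 + b / z ≠ 0 ∧ 1 + b / z ∈ slitPlane := by
  have hz0 : z ≠ 0 := by
    rintro rfl
    simp at hz
    linarith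
  have hzn : 0 < ‖z‖ := norm_pos_iff.2 hz0
  have h1 : ‖b / z‖ < 1 := by
    rw [norm_div, div_lt_one hzn]
    linarith
  have h2 : 0 < (1 + b / z).re := by
    have := (abs_le.1 (Complex.abs_re_le_norm (b / z))).1
    simp only [add_re, one_re]
    linarith
  have h3 : 1 + b / z ∈ slitPlane := by
    rw [mem_slitPlane_iff]
    exact Or.inl h2
  refine ⟨hz0, ?_, slitPlane_ne_zero h3, h3⟩
  intro h
  apply slitPlane_ne_zero h3
  field_simp
  simpa using h

private lemma d_log {b : ℂ} (hb : ‖b‖ ≤ 1 / 8) {γ : ℝ → ℂ} {t : ℝ} {v : ℂ}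
    (hγ : HasDerivAt γ v t) (hz : 1 / 4 < ‖γ t‖) :
    HasDerivAt (fun s => Complex.log (1 + b / γ s)) (-b / (γ t * (γ t + b)) * v) t := by
  obtain ⟨h0, h1, h2, h3⟩ := basic hb hz
  have hd : HasDerivAt (fun s => 1 + b / γ s) (-(b * v) / (γ t) ^ 2) t := by
    have := ((hasDerivAt_const t b).div hγ h0).const_add 1
    have e : -(b * v) / (γ t) ^ 2 = (0 * γ t - b * v) / (γ t) ^ 2 := by ring
    rw [e]
    exact this
  have := hd.clog_real h3
  convert this using 1
  field_simp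

/-- the derivative of the logarithm of `g4` -/
noncomputable def dS (k : ℤ) (μ : ℂ) (b : Fin 4 → ℂ) (z v : ℂ) : ℂ :=
  TL k μ (-b 0 / (z * (z + b 0)) * v) + TL k μ (-b 1 / (z * (z + b 1)) * v) +
    (starRingEnd ℂ) (TL k μ (-b 2 / (z * (z + b 2)) * v)) +
    (starRingEnd ℂ) (TL k μ (-b 3 / (z * (z + b 3)) * v))

private lemma g4_eq (k : ℤ) (μ : ℂ) (b : Fin 4 → ℂ) (hb : ∀ i, ‖b i‖ ≤ 1 / 8) {z : ℂ}
    (hz : 1 / 4 < ‖z‖) :
    g4 k μ b z = cexp (TL k μ (Complex.log (1 + b 0 / z)) + TL k μ (Complex.log (1 + b 1 / z)) +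
      (starRingEnd ℂ) (TL k μ (Complex.log (1 + b 2 / z))) +
      (starRingEnd ℂ) (TL k μ (Complex.log (1 + b 3 / z)))) := by
  unfold g4
  rw [Gm_eq _ _ _ (basic (hb 0) hz).2.2.1, Gm_eq _ _ _ (basic (hb 1) hz).2.2.1,
    Gm_eq _ _ _ (basic (hb 2) hz).2.2.1, Gm_eq _ _ _ (basic (hb 3) hz).2.2.1,
    Complex.exp_add, Complex.exp_add, Complex.exp_add, Complex.exp_conj, Complex.exp_conj]

private lemma d_g4 (k : ℤ) (μ : ℂ) (b : Fin 4 → ℂ) (hb : ∀ i, ‖b i‖ ≤ 1 / 8) {γ : ℝ → ℂ} {t : ℝ}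
    {v : ℂ} (hγ : HasDerivAt γ v t) (hz : 1 / 4 < ‖γ t‖) :
    HasDerivAt (fun s => g4 k μ b (γ s)) (g4 k μ b (γ t) * dS k μ b (γ t) v) t := by
  have hl : ∀ i, HasDerivAt (fun s => TL k μ (Complex.log (1 + b i / γ s)))
      (TL k μ (-b i / (γ t * (γ t + b i)) * v)) t := fun i =>
    (TL k μ).hasFDerivAt.comp_hasDerivAt t (d_log (hb i) hγ hz)
  have hS := (((hl 0).add (hl 1)).add (hl 2).star).add (hl 3).star
  have hE := hS.cexp
  have hev : (fun s => g4 k μ b (γ s)) =ᶠ[nhds t] (fun s => cexp (TL k μ (Complex.log (1 + b 0 / γ s)) + TL k μ (Complex.log (1 + b 1 / γ s)) +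
      (starRingEnd ℂ) (TL k μ (Complex.log (1 + b 2 / γ s))) +
      (starRingEnd ℂ) (TL k μ (Complex.log (1 + b 3 / γ s))))) := by
    have : ∀ᶠ s in nhds t, 1 / 4 < ‖γ s‖ :=
      hγ.continuousAt.norm.eventually (lt_mem_nhds hz)
    filter_upwards [this] with s hs
    exact g4_eq k μ b hb hs
  have := hE.congr_of_eventuallyEq hev
  rw [g4_eq k μ b hb hz]
  exact this

private lemma d_Phi (k : ℤ) (μ : ℂ) (b : Fin 4 → ℂ) (hb : ∀ i, ‖b i‖ ≤ 1 / 8) {γ G : ℝ → ℂ}
    {t : ℝ} {v g' : ℂ} (hγ : HasDerivAt γ v t) (hG : HasDerivAt G g' t)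
    (hs : ∀ s, G s ≠ 0 → 1 / 2 ≤ ‖γ s‖) :
    HasDerivAt (fun s => G s * ((γ s + b 1) * (γ s + b 3) * g4 k μ b (γ s)))
      (g' * ((γ t + b 1) * (γ t + b 3) * g4 k μ b (γ t)) +
        G t * ((v * (γ t + b 3) + (γ t + b 1) * v) * g4 k μ b (γ t) +
          (γ t + b 1) * (γ t + b 3) * (g4 k μ b (γ t) * dS k μ b (γ t) v))) t := by
  by_cases hz : 1 / 4 < ‖γ t‖
  · exact hG.mul (((hγ.add_const (b 1)).mul (hγ.add_const (b 3))).mul (d_g4 k μ b hb hγ hz))
  · have hev : ∀ᶠ s in nhds t, G s = 0 := by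
      have : ∀ᶠ s in nhds t, ‖γ s‖ < 1 / 2 :=
        hγ.continuousAt.norm.eventually (gt_mem_nhds (by linarith [not_lt.1 hz]))
      filter_upwards [this] with s hs'
      by_contra h
      exact absurd (hs s h) (not_le.2 hs')
    have h0 : G t = 0 := hev.self_of_nhds
    have hg0 : g' = 0 := by
      have h1 : HasDerivAt G 0 t :=
        (hasDerivAt_const t (0 : ℂ)).congr_of_eventuallyEq hev
      exact hG.unique h1
    rw [h0, hg0]
    simp only [zero_mul, add_zero]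
    refine (hasDerivAt_const t (0 : ℂ)).congr_of_eventuallyEq ?_
    filter_upwards [hev] with s hs'
    rw [hs', zero_mul]

private lemma meas_g4 (k : ℤ) (μ : ℂ) (b : Fin 4 → ℂ) : Measurable (g4 k μ b) := by
  have hG : Measurable (Gm k μ) := by
    unfold Gm
    have h1 : Measurable (fun w : ℂ => w / ((‖w‖ : ℝ) : ℂ)) :=
      measurable_id.div (Complex.measurable_ofReal.comp measurable_norm)
    have h2 : Measurable (fun w : ℂ => cexp (μ * ((Real.log ‖w‖ : ℝ) : ℂ))) := by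
      refine Complex.measurable_exp.comp (Measurable.const_mul ?_ μ)
      exact Complex.measurable_ofReal.comp (Real.measurable_log.comp measurable_norm)
    exact (h1.pow_const k).mul h2
  have hw : ∀ i, Measurable (fun z : ℂ => Gm k μ (1 + b i / z)) := fun i =>
    hG.comp ((measurable_const.div measurable_id).const_add 1)
  have hc : Measurable (starRingEnd ℂ) := Complex.continuous_conj.measurable
  unfold g4
  exact (((hw 0).mul (hw 1)).mul (hc.comp (hw 2))).mul (hc.comp (hw 3))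

private lemma meas_dS (k : ℤ) (μ : ℂ) (b : Fin 4 → ℂ) (v : ℂ) :
    Measurable (fun z => dS k μ b z v) := by
  have hw : ∀ i, Measurable (fun z : ℂ => TL k μ (-b i / (z * (z + b i)) * v)) := fun i =>
    (TL k μ).continuous.measurable.comp
      ((measurable_const.div (measurable_id.mul (measurable_id.add_const _))).mul_const v)
  have hc : Measurable (starRingEnd ℂ) := Complex.continuous_conj.measurable
  unfold dS
  exact (((hw 0).add (hw 1)).add (hc.comp (hw 2))).add (hc.comp (hw 3))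

private lemma cb {b z : ℂ} (hb : ‖b‖ ≤ 1 / 8) (hz : 1 / 2 ≤ ‖z‖) :
    ‖-b / (z * (z + b))‖ ≤ 1 := by
  have h1 : 3 / 8 ≤ ‖z + b‖ := by
    have := norm_sub_le (z + b) b
    rw [add_sub_cancel_right] at this
    linarith
  rw [norm_div, norm_neg, norm_mul, div_le_one (by positivity)]
  nlinarith

private lemma norm_Gm {k : ℤ} {μ b z : ℂ} (hμ : |μ.re| ≤ 8) (hb : ‖b‖ ≤ 1 / 8)
    (hz : 1 / 2 ≤ ‖z‖) : ‖Gm k μ (1 + b / z)‖ ≤ Real.exp (11 / 4) := by
  have hz0 : 0 < ‖z‖ := by linarith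
  have hbz : ‖b / z‖ ≤ 1 / 4 := by
    rw [norm_div, div_le_iff₀ hz0]
    linarith
  have h1 : ‖1 + b / z‖ ≤ 5 / 4 := by
    have := norm_add_le (1 : ℂ) (b / z)
    rw [norm_one] at this
    linarith
  have h2 : 3 / 4 ≤ ‖1 + b / z‖ := by
    have := norm_sub_le (1 + b / z) (b / z)
    rw [add_sub_cancel_right, norm_one] at this
    linarith
  rw [Gm_eq _ _ _ (basic hb (by linarith)).2.2.1, Complex.norm_exp, TL_apply]
  apply Real.exp_le_exp.2
  have hp : 0 < ‖1 + b / z‖ := by linarith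
  have hl1 : Real.log ‖1 + b / z‖ ≤ 1 / 3 := by
    have := Real.log_le_sub_one_of_pos hp
    linarith
  have hl2 : -(1 / 3) ≤ Real.log ‖1 + b / z‖ := by
    have := Real.one_sub_inv_le_log_of_pos hp
    have h3 : ‖1 + b / z‖⁻¹ ≤ 4 / 3 := by
      rw [inv_le_comm₀ hp (by norm_num)]
      linarith
    linarith
  have he : (I * (k : ℂ) * ((Complex.log (1 + b / z)).im : ℂ) +
      μ * ((Complex.log (1 + b / z)).re : ℂ)).re = μ.re * Real.log ‖1 + b / z‖ := by
    rw [Complex.log_re]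
    simp
  rw [he]
  have ha : |Real.log ‖1 + b / z‖| ≤ 1 / 3 := abs_le.2 ⟨by linarith, hl1⟩
  calc μ.re * Real.log ‖1 + b / z‖ ≤ |μ.re * Real.log ‖1 + b / z‖| := le_abs_self _
    _ = |μ.re| * |Real.log ‖1 + b / z‖| := abs_mul _ _
    _ ≤ 8 * (1 / 3) := mul_le_mul hμ ha (abs_nonneg _) (by norm_num)
    _ ≤ 11 / 4 := by norm_num

private lemma norm_g4 {k : ℤ} {μ z : ℂ} {b : Fin 4 → ℂ} (hμ : |μ.re| ≤ 8)
    (hb : ∀ i, ‖b i‖ ≤ 1 / 8) (hz : 1 / 2 ≤ ‖z‖) : ‖g4 k μ b z‖ ≤ Real.exp 11 := by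
  have h := fun i => norm_Gm (k := k) hμ (hb i) hz
  unfold g4
  rw [norm_mul, norm_mul, norm_mul, RCLike.norm_conj, RCLike.norm_conj]
  have he : Real.exp 11 = Real.exp (11 / 4) * Real.exp (11 / 4) * Real.exp (11 / 4) *
      Real.exp (11 / 4) := by
    rw [← Real.exp_add, ← Real.exp_add, ← Real.exp_add]
    norm_num
  rw [he]
  exact mul_le_mul (mul_le_mul (mul_le_mul (h 0) (h 1) (norm_nonneg _) (by positivity)) (h 2)
    (norm_nonneg _) (by positivity)) (h 3) (norm_nonneg _) (by positivity)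

/-- the smooth part of the derivative of the logarithm -/
noncomputable def e0 (μ : ℂ) (b : Fin 4 → ℂ) (z : ℂ) : ℂ :=
  2 * (μ.re : ℂ) * (-b 0 / (z * (z + b 0))) +
    (μ.re : ℂ) * (-b 1 / (z * (z + b 1)) + -b 3 / (z * (z + b 3)))

private lemma norm_e0 {μ z : ℂ} {b : Fin 4 → ℂ} (hμ : |μ.re| ≤ 8)
    (hb : ∀ i, ‖b i‖ ≤ 1 / 8) (hz : 1 / 2 ≤ ‖z‖) : ‖e0 μ b z‖ ≤ 32 := by
  have h := fun i => cb (hb i) hz
  have hr : ‖(μ.re : ℂ)‖ ≤ 8 := by simpa using hμ
  unfold e0
  calc _ ≤ ‖2 * (μ.re : ℂ) * (-b 0 / (z * (z + b 0)))‖ +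
        ‖(μ.re : ℂ) * (-b 1 / (z * (z + b 1)) + -b 3 / (z * (z + b 3)))‖ := norm_add_le _ _
    _ ≤ 16 * 1 + 8 * (1 + 1) := by
        refine add_le_add ?_ ?_
        · rw [norm_mul, norm_mul]
          refine mul_le_mul ?_ (h 0) (norm_nonneg _) (by norm_num)
          simp only [Complex.norm_ofNat]
          linarith
        · rw [norm_mul]
          refine mul_le_mul hr ?_ (norm_nonneg _) (by norm_num)
          exact (norm_add_le _ _).trans (add_le_add (h 1) (h 3))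
    _ = 32 := by norm_num

private lemma meas_e0 (μ : ℂ) (b : Fin 4 → ℂ) : Measurable (e0 μ b) := by
  have hw : ∀ i, Measurable (fun z : ℂ => -b i / (z * (z + b i))) := fun i =>
    (measurable_const.div (measurable_id.mul (measurable_id.add_const _)))
  unfold e0
  exact ((hw 0).const_mul _).add (((hw 1).add (hw 3)).const_mul _)

private lemma norm_dS {k : ℤ} {μ z v : ℂ} {b : Fin 4 → ℂ} (hv : ‖v‖ ≤ 1)
    (hb : ∀ i, ‖b i‖ ≤ 1 / 8) (hz : 1 / 2 ≤ ‖z‖) : ‖dS k μ b z v‖ ≤ 4 * ‖TL k μ‖ := by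
  have h : ∀ i, ‖TL k μ (-b i / (z * (z + b i)) * v)‖ ≤ ‖TL k μ‖ := fun i => by
    refine ((TL k μ).le_opNorm _).trans ?_
    have : ‖-b i / (z * (z + b i)) * v‖ ≤ 1 := by
      rw [norm_mul]
      exact mul_le_one₀ (cb (hb i) hz) (norm_nonneg _) hv
    exact mul_le_of_le_one_right (norm_nonneg _) this
  unfold dS
  refine (norm_add_le _ _).trans ?_
  refine (add_le_add (norm_add_le _ _) le_rfl).trans ?_
  refine (add_le_add (add_le_add (norm_add_le _ _) le_rfl) le_rfl).trans ?_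
  rw [RCLike.norm_conj, RCLike.norm_conj]
  linarith [h 0, h 1, h 2, h 3]

private lemma q_c {z b1 b3 : ℂ} (h0 : z ≠ 0) (h1 : z + b1 ≠ 0) (h3 : z + b3 ≠ 0) :
    (z + b1) * (z + b3) * (-b1 / (z * (z + b1)) - -b3 / (z * (z + b3))) = b3 - b1 := by
  field_simp
  ring

section Core

variable {E : Type*} [NormedAddCommGroup E] [NormedSpace ℝ E] [MeasurableSpace E] [BorelSpace E]
  [FiniteDimensional ℝ E]

private lemma core (ν : Measure E) [ν.IsAddHaarMeasure] (ι : E → ℂ) (hι : Measurable ι)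
    (hn : ∀ x, ‖ι x‖ = ‖x‖) (k : ℤ) (μ : ℂ) (b : Fin 4 → ℂ) (hμ : |μ.re| ≤ 8)
    (hb : ∀ i, ‖b i‖ ≤ 1 / 8) (B : ℝ) (hB : 0 ≤ B) (G D : E → ℂ) (hG : Measurable G)
    (hD : Measurable D) (hGb : ∀ x, ‖G x‖ ≤ B) (hGs : ∀ x, G x ≠ 0 → 1 / 2 ≤ ‖x‖ ∧ ‖x‖ ≤ 3)
    (hDb : ∀ x, ‖D x‖ ≤ 2 * B) (hDs : ∀ x, D x ≠ 0 → 1 / 2 ≤ ‖x‖ ∧ ‖x‖ ≤ 3) (m : ℂ)
    (hm : ‖m‖ ≤ 2) (κ : ℂ)
    (hI : ∫ x, (D x * ((ι x + b 1) * (ι x + b 3) * g4 k μ b (ι x)) +
      G x * (m * ((ι x + b 3) + (ι x + b 1)) * g4 k μ b (ι x) +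
        (ι x + b 1) * (ι x + b 3) * (g4 k μ b (ι x) * (e0 μ b (ι x) +
          κ * (-b 1 / (ι x * (ι x + b 1)) - -b 3 / (ι x * (ι x + b 3))))))) ∂ν = 0) :
    ‖∫ x, G x * g4 k μ b (ι x) ∂ν‖ ≤
      560 * B * Real.exp 11 * (ν (Metric.closedBall (0 : E) 3)).toReal ∧
    ‖κ‖ * ‖b 1 - b 3‖ * ‖∫ x, G x * g4 k μ b (ι x) ∂ν‖ ≤
      560 * B * Real.exp 11 * (ν (Metric.closedBall (0 : E) 3)).toReal := by
  have hV : 0 ≤ (ν (Metric.closedBall (0 : E) 3)).toReal := ENNReal.toReal_nonneg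
  have he : 0 < Real.exp 11 := Real.exp_pos _
  have hmP : Measurable (fun x => g4 k μ b (ι x)) := (meas_g4 k μ b).comp hι
  have hme : Measurable (fun x => e0 μ b (ι x)) := (meas_e0 μ b).comp hι
  have hP : ∀ x, 1 / 2 ≤ ‖x‖ → ‖g4 k μ b (ι x)‖ ≤ Real.exp 11 := fun x hx =>
    norm_g4 hμ hb (by rw [hn]; exact hx)
  have hq : ∀ i, ∀ x, ‖x‖ ≤ 3 → ‖ι x + b i‖ ≤ 4 := fun i x hx => by
    have h1 := norm_add_le (ι x) (b i)
    have h2 := hb i
    rw [hn] at h1
    linarith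
  obtain ⟨i1, n1⟩ := int_bd ν (fun x => G x * g4 k μ b (ι x)) (B * Real.exp 11)
    (hG.mul hmP).aestronglyMeasurable (fun x => by
      by_cases hx : G x = 0
      · rw [hx, zero_mul, norm_zero]
        positivity
      · rw [norm_mul]
        exact mul_le_mul (hGb x) (hP x (hGs x hx).1) (norm_nonneg _) hB)
    (fun x hx => (hGs x (left_ne_zero_of_mul hx)).2)
  set W : E → ℂ := fun x => D x * ((ι x + b 1) * (ι x + b 3) * g4 k μ b (ι x)) +
      G x * (m * ((ι x + b 3) + (ι x + b 1)) * g4 k μ b (ι x) +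
        (ι x + b 1) * (ι x + b 3) * (g4 k μ b (ι x) * e0 μ b (ι x))) with hW
  obtain ⟨i2, n2⟩ := int_bd ν W (560 * B * Real.exp 11)
    (by
      have m1 : Measurable (fun x => ι x + b 1) := hι.add_const _
      have m3 : Measurable (fun x => ι x + b 3) := hι.add_const _
      exact ((hD.mul ((m1.mul m3).mul hmP)).add (hG.mul ((((m3.add m1).const_mul m).mul hmP).add
        ((m1.mul m3).mul (hmP.mul hme))))).aestronglyMeasurable) (fun x => by
      have t1 : ‖D x * ((ι x + b 1) * (ι x + b 3) * g4 k μ b (ι x))‖ ≤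
          2 * B * (4 * 4 * Real.exp 11) := by
        by_cases hx : D x = 0
        · rw [hx, zero_mul, norm_zero]
          positivity
        · obtain ⟨a1, a2⟩ := hDs x hx
          rw [norm_mul, norm_mul, norm_mul]
          exact mul_le_mul (hDb x) (mul_le_mul (mul_le_mul (hq 1 x a2) (hq 3 x a2) (norm_nonneg _)
            (by norm_num)) (hP x a1) (norm_nonneg _) (by norm_num)) (by positivity) (by positivity)
      have t2 : ‖G x * (m * ((ι x + b 3) + (ι x + b 1)) * g4 k μ b (ι x) +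
          (ι x + b 1) * (ι x + b 3) * (g4 k μ b (ι x) * e0 μ b (ι x)))‖ ≤
          B * (2 * (4 + 4) * Real.exp 11 + 4 * 4 * (Real.exp 11 * 32)) := by
        by_cases hx : G x = 0
        · rw [hx, zero_mul, norm_zero]
          positivity
        · obtain ⟨a1, a2⟩ := hGs x hx
          rw [norm_mul]
          refine mul_le_mul (hGb x) ((norm_add_le _ _).trans (add_le_add ?_ ?_)) (norm_nonneg _) hB
          · rw [norm_mul, norm_mul]
            exact mul_le_mul (mul_le_mul hm ((norm_add_le _ _).trans (add_le_add (hq 3 x a2)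
              (hq 1 x a2))) (norm_nonneg _) (by norm_num)) (hP x a1) (norm_nonneg _) (by norm_num)
          · rw [norm_mul, norm_mul, norm_mul]
            exact mul_le_mul (mul_le_mul (hq 1 x a2) (hq 3 x a2) (norm_nonneg _) (by norm_num))
              (mul_le_mul (hP x a1) (norm_e0 hμ hb (by rw [hn]; exact a1)) (norm_nonneg _) he.le)
              (by positivity) (by norm_num)
      refine (norm_add_le _ _).trans ((add_le_add t1 t2).trans (le_of_eq ?_))
      ring)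
    (fun x hx => by
      by_contra h3
      apply hx
      have d0 : D x = 0 := by
        by_contra h
        exact h3 (hDs x h).2
      have g0 : G x = 0 := by
        by_contra h
        exact h3 (hGs x h).2
      simp only [hW, d0, g0, zero_mul, add_zero])
  have hpt : ∀ x, (D x * ((ι x + b 1) * (ι x + b 3) * g4 k μ b (ι x)) +
      G x * (m * ((ι x + b 3) + (ι x + b 1)) * g4 k μ b (ι x) +
        (ι x + b 1) * (ι x + b 3) * (g4 k μ b (ι x) * (e0 μ b (ι x) +
          κ * (-b 1 / (ι x * (ι x + b 1)) - -b 3 / (ι x * (ι x + b 3))))))) =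
      W x + κ * (b 3 - b 1) * (G x * g4 k μ b (ι x)) := by
    intro x
    by_cases hx : G x = 0
    · simp only [hW, hx, zero_mul, add_zero, mul_zero]
    · have hz : 1 / 4 < ‖ι x‖ := by
        rw [hn]
        linarith [(hGs x hx).1]
      have h1 := basic (hb 1) hz
      have h3 := basic (hb 3) hz
      rw [← q_c h1.1 h1.2.1 h3.2.1]
      simp only [hW]
      ring
  rw [integral_congr_ae (Eventually.of_forall hpt), integral_add i2 (i1.const_mul _),
    integral_const_mul] at hI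
  have hI2 : κ * (b 3 - b 1) * ∫ x, G x * g4 k μ b (ι x) ∂ν = -∫ x, W x ∂ν := by
    linear_combination hI
  constructor
  · refine n1.trans ?_
    apply mul_le_mul_of_nonneg_right _ hV
    nlinarith [mul_nonneg hB he.le]
  · have : ‖κ‖ * ‖b 1 - b 3‖ * ‖∫ x, G x * g4 k μ b (ι x) ∂ν‖ = ‖∫ x, W x ∂ν‖ := by
      rw [← norm_neg (∫ x, W x ∂ν), ← hI2, norm_mul, norm_mul, norm_sub_rev]
    rw [this]
    exact n2

end Core

private lemma dS_real (k : ℤ) (μ : ℂ) (b : Fin 4 → ℂ) (z : ℂ) (hb : ∀ i, (b i).im = 0)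
    (hz : z.im = 0) (h02 : b 0 = b 2) :
    dS k μ b z 1 = e0 μ b z +
      (I * (μ.im : ℂ)) * (-b 1 / (z * (z + b 1)) - -b 3 / (z * (z + b 3))) := by
  have hc : ∀ i, ∃ c : ℝ, -b i / (z * (z + b i)) = (c : ℂ) := fun i => by
    refine ⟨-(b i).re / (z.re * (z.re + (b i).re)), ?_⟩
    have e1 : b i = ((b i).re : ℂ) := by
      apply Complex.ext <;> simp [hb i]
    have e2 : z = (z.re : ℂ) := by
      apply Complex.ext <;> simp [hz]
    rw [e1, e2]
    push_cast
    simp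
  obtain ⟨c0, h0⟩ := hc 0
  obtain ⟨c1, h1⟩ := hc 1
  obtain ⟨c2, h2⟩ := hc 2
  obtain ⟨c3, h3⟩ := hc 3
  have h20 : (c2 : ℂ) = c0 := by rw [← h0, ← h2, h02]
  unfold dS e0
  rw [h0, h1, h2, h3, h20, TL_apply, TL_apply, TL_apply]
  simp only [mul_one, ofReal_im, ofReal_re, ofReal_zero, mul_zero, zero_add, map_mul,
    Complex.conj_ofReal]
  have hμ : μ = (μ.re : ℂ) + (μ.im : ℂ) * I := (Complex.re_add_im μ).symm
  have hμ' : (starRingEnd ℂ) μ = (μ.re : ℂ) - (μ.im : ℂ) * I := by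
    apply Complex.ext <;> simp
  rw [hμ']
  linear_combination ((c0 : ℂ) + c1) * hμ

private lemma TL_c (k : ℤ) (μ c : ℂ) : TL k μ (c * 1) - I * TL k μ (c * I) = (k + μ) * c := by
  rw [TL_apply, TL_apply]
  apply Complex.ext <;> simp <;> ring

private lemma TL_cc (k : ℤ) (μ c : ℂ) :
    (starRingEnd ℂ) (TL k μ (c * 1)) - I * (starRingEnd ℂ) (TL k μ (c * I)) =
      (-k + (starRingEnd ℂ) μ) * c := by
  rw [TL_apply, TL_apply]
  apply Complex.ext <;> simp <;> ring

private lemma dS_cplx (k : ℤ) (μ : ℂ) (b : Fin 4 → ℂ) (z : ℂ) (h02 : b 0 = b 2) :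
    dS k μ b z 1 - I * dS k μ b z I = e0 μ b z +
      ((k : ℂ) + I * (μ.im : ℂ)) * (-b 1 / (z * (z + b 1)) - -b 3 / (z * (z + b 3))) := by
  have a0 := TL_c k μ (-b 0 / (z * (z + b 0)))
  have a1 := TL_c k μ (-b 1 / (z * (z + b 1)))
  have a2 := TL_cc k μ (-b 2 / (z * (z + b 2)))
  have a3 := TL_cc k μ (-b 3 / (z * (z + b 3)))
  have hμ : μ = (μ.re : ℂ) + (μ.im : ℂ) * I := (Complex.re_add_im μ).symm
  have hμ' : (starRingEnd ℂ) μ = (μ.re : ℂ) - (μ.im : ℂ) * I := by
    apply Complex.ext <;> simp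
  rw [hμ'] at a2 a3
  rw [← h02] at a2
  unfold dS e0
  rw [← h02]
  linear_combination a0 + a1 + a2 + a3 +
    (-b 0 / (z * (z + b 0)) + -b 1 / (z * (z + b 1))) * hμ

section Line

variable {E : Type*} [NormedAddCommGroup E] [NormedSpace ℝ E] [MeasurableSpace E] [BorelSpace E]
  [FiniteDimensional ℝ E]

/-- the derivative of the product -/
noncomputable def dF (ι : E → ℂ) (k : ℤ) (μ : ℂ) (b : Fin 4 → ℂ) (G : E → ℂ) (v x : E) : ℂ :=
  fderiv ℝ G x v * ((ι x + b 1) * (ι x + b 3) * g4 k μ b (ι x)) +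
    G x * ((ι v * (ι x + b 3) + (ι x + b 1) * ι v) * g4 k μ b (ι x) +
      (ι x + b 1) * (ι x + b 3) * (g4 k μ b (ι x) * dS k μ b (ι x) (ι v)))

omit [MeasurableSpace E] [BorelSpace E] [FiniteDimensional ℝ E] in
private lemma far (G : E → ℂ) (hGs : ∀ x, G x ≠ 0 → 1 / 2 ≤ ‖x‖ ∧ ‖x‖ ≤ 3) (x v : E)
    (h : fderiv ℝ G x v ≠ 0) : 1 / 2 ≤ ‖x‖ ∧ ‖x‖ ≤ 3 := by
  by_contra hx
  apply h
  have hev : G =ᶠ[nhds x] fun _ => 0 := by
    rw [not_and_or, not_le, not_le] at hx
    rcases hx with hx | hx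
    · filter_upwards [continuous_norm.continuousAt.eventually (gt_mem_nhds hx)] with y hy
      by_contra h
      exact absurd (hGs y h).1 (not_le.2 hy)
    · filter_upwards [continuous_norm.continuousAt.eventually (lt_mem_nhds hx)] with y hy
      by_contra h
      exact absurd (hGs y h).2 (not_le.2 hy)
  rw [hev.fderiv_eq]
  simp

private lemma line_zero (ν : Measure E) [ν.IsAddHaarMeasure] (ι : E →L[ℝ] ℂ)
    (hn : ∀ x, ‖ι x‖ = ‖x‖) (k : ℤ) (μ : ℂ) (b : Fin 4 → ℂ) (hμ : |μ.re| ≤ 8)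
    (hb : ∀ i, ‖b i‖ ≤ 1 / 8) (B : ℝ) (hB : 0 ≤ B) (G : E → ℂ) (hG : Differentiable ℝ G)
    (hGb : ∀ x, ‖G x‖ ≤ B) (hGs : ∀ x, G x ≠ 0 → 1 / 2 ≤ ‖x‖ ∧ ‖x‖ ≤ 3) (v : E) (hv : ‖v‖ ≤ 1)
    (hDb : ∀ x, ‖fderiv ℝ G x v‖ ≤ B) :
    Integrable (dF ι k μ b G v) ν ∧ ∫ x, dF ι k μ b G v x ∂ν = 0 := by
  have he : 0 < Real.exp 11 := Real.exp_pos _
  have hι : Measurable ι := ι.continuous.measurable
  have hmG : Measurable G := hG.continuous.measurable
  have hmD : Measurable (fun x => fderiv ℝ G x v) := measurable_fderiv_apply_const ℝ G v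
  have hmP : Measurable (fun x => g4 k μ b (ι x)) := (meas_g4 k μ b).comp hι
  have hmS : Measurable (fun x => dS k μ b (ι x) (ι v)) := (meas_dS k μ b (ι v)).comp hι
  have hP : ∀ x, 1 / 2 ≤ ‖x‖ → ‖g4 k μ b (ι x)‖ ≤ Real.exp 11 := fun x hx =>
    norm_g4 hμ hb (by rw [hn]; exact hx)
  have hq : ∀ i, ∀ x, ‖x‖ ≤ 3 → ‖ι x + b i‖ ≤ 4 := fun i x hx => by
    have h1 := norm_add_le (ι x) (b i)
    have h2 := hb i
    rw [hn] at h1
    linarith
  have m1 : Measurable (fun x => ι x + b 1) := hι.add_const _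
  have m3 : Measurable (fun x => ι x + b 3) := hι.add_const _
  have hF := int_bd ν (fun x => G x * ((ι x + b 1) * (ι x + b 3) * g4 k μ b (ι x)))
    (B * (4 * 4 * Real.exp 11)) (hmG.mul ((m1.mul m3).mul hmP)).aestronglyMeasurable
    (fun x => by
      by_cases hx : G x = 0
      · rw [hx, zero_mul, norm_zero]
        positivity
      · obtain ⟨a1, a2⟩ := hGs x hx
        rw [norm_mul, norm_mul, norm_mul]
        exact mul_le_mul (hGb x) (mul_le_mul (mul_le_mul (hq 1 x a2) (hq 3 x a2) (norm_nonneg _)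
          (by norm_num)) (hP x a1) (norm_nonneg _) (by norm_num)) (by positivity) (by positivity))
    (fun x hx => (hGs x (left_ne_zero_of_mul hx)).2)
  have hvn : ‖ι v‖ ≤ 1 := by rw [hn]; exact hv
  have hF' := int_bd ν (dF ι k μ b G v) (B * (4 * 4 * Real.exp 11) +
      B * ((1 * 4 + 4 * 1) * Real.exp 11 + 4 * 4 * (Real.exp 11 * (4 * ‖TL k μ‖))))
    (by
      unfold dF
      exact ((hmD.mul ((m1.mul m3).mul hmP)).add (hmG.mul ((((m3.const_mul (ι v)).add
        (m1.mul_const (ι v))).mul hmP).add ((m1.mul m3).mul (hmP.mul hmS))))).aestronglyMeasurable)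
    (fun x => by
      unfold dF
      refine (norm_add_le _ _).trans (add_le_add ?_ ?_)
      · by_cases hx : fderiv ℝ G x v = 0
        · rw [hx, zero_mul, norm_zero]
          positivity
        · obtain ⟨a1, a2⟩ := far G hGs x v hx
          rw [norm_mul, norm_mul, norm_mul]
          exact mul_le_mul (hDb x) (mul_le_mul (mul_le_mul (hq 1 x a2) (hq 3 x a2) (norm_nonneg _)
            (by norm_num)) (hP x a1) (norm_nonneg _) (by norm_num)) (by positivity) (by positivity)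
      · by_cases hx : G x = 0
        · rw [hx, zero_mul, norm_zero]
          positivity
        · obtain ⟨a1, a2⟩ := hGs x hx
          rw [norm_mul]
          refine mul_le_mul (hGb x) ((norm_add_le _ _).trans (add_le_add ?_ ?_)) (norm_nonneg _) hB
          · rw [norm_mul]
            refine mul_le_mul ((norm_add_le _ _).trans ?_) (hP x a1) (norm_nonneg _) (by norm_num)
            rw [norm_mul, norm_mul]
            exact add_le_add (mul_le_mul hvn (hq 3 x a2) (norm_nonneg _) (by norm_num))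
              (mul_le_mul (hq 1 x a2) hvn (norm_nonneg _) (by norm_num))
          · rw [norm_mul, norm_mul, norm_mul]
            exact mul_le_mul (mul_le_mul (hq 1 x a2) (hq 3 x a2) (norm_nonneg _) (by norm_num))
              (mul_le_mul (hP x a1) (norm_dS hvn hb (by rw [hn]; exact a1)) (norm_nonneg _) he.le)
              (by positivity) (by norm_num))
    (fun x hx => by
      by_contra h3
      apply hx
      have d0 : fderiv ℝ G x v = 0 := by
        by_contra h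
        exact h3 (far G hGs x v h).2
      have g0 : G x = 0 := by
        by_contra h
        exact h3 (hGs x h).2
      simp only [dF, d0, g0, zero_mul, add_zero])
  refine ⟨hF'.1, int_line_zero ν _ _ v (fun x => ?_) hF.1 hF'.1⟩
  have hγ : HasDerivAt (fun s : ℝ => ι (x + s • v)) (ι v) 0 := by
    have h1 : HasDerivAt (fun s : ℝ => x + s • v) v 0 := by
      have := ((hasDerivAt_id (0 : ℝ)).smul_const v).const_add x
      simpa using this
    exact ι.hasFDerivAt.comp_hasDerivAt 0 h1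
  have hG' : HasDerivAt (fun s : ℝ => G (x + s • v)) (fderiv ℝ G x v) 0 :=
    (hG x).hasFDerivAt.hasLineDerivAt v
  have h := d_Phi k μ b hb hγ hG' (fun s hs => by rw [hn]; exact (hGs _ hs).1)
  simp only [zero_smul, add_zero] at h
  exact h

end Line

private lemma fin_bd {r : Bool} {X K y : ℝ} (hX : 0 ≤ X) (hy : 0 < y) (h1 : X ≤ K)
    (h2 : X * y ≤ K) : X ≤ K * (y ^ ((dg r : ℝ) / 2))⁻¹ := by
  have hp : 0 < y ^ ((dg r : ℝ) / 2) := Real.rpow_pos_of_pos hy _
  rw [← div_eq_mul_inv, le_div_iff₀ hp]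
  have hd0 : 0 ≤ (dg r : ℝ) / 2 := by positivity
  have hd1 : (dg r : ℝ) / 2 ≤ 1 := by
    cases r <;> simp [dg]
    norm_num
  rcases le_total y 1 with h | h
  · have := Real.rpow_le_one hy.le h hd0
    nlinarith
  · have := Real.rpow_le_rpow_of_exponent_le h hd1
    rw [Real.rpow_one] at this
    nlinarith

theorem pf_A_I2 : A_I2 := by
  set V : ℝ := (volume (Metric.closedBall (0 : ℝ) 3)).toReal with hV
  set V' : ℝ := (volume (Metric.closedBall (0 : ℂ) 3)).toReal with hV'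
  have v0 : 0 ≤ V := ENNReal.toReal_nonneg
  have v0' : 0 ≤ V' := ENNReal.toReal_nonneg
  have he : 0 < Real.exp 11 := Real.exp_pos _
  refine ⟨3 * 560 * Real.exp 11 * (V + V'), by positivity, ?_⟩
  intro r k μ B g b hQ hB hS hPt h02 h13
  have hδ : 0 < ‖b 1 - b 3‖ := norm_pos_iff.2 (sub_ne_zero.2 h13)
  have hδ1 : ‖b 1 - b 3‖ ≤ 1 / 4 := by
    have := norm_sub_le (b 1) (b 3)
    linarith [hPt.le 1, hPt.le 3]
  have hcc : 0 < cc k μ := by unfold cc; positivity
  have hy : 0 < cc k μ * ‖b 1 - b 3‖ := mul_pos hcc hδ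
  set X : ℝ := ‖∫ z, g z * g4 k μ b z ∂mz r‖ with hXd
  have hX0 : 0 ≤ X := norm_nonneg _
  suffices h : X ≤ 3 * 560 * Real.exp 11 * (V + V') * B ∧
      X * (cc k μ * ‖b 1 - b 3‖) ≤ 3 * 560 * Real.exp 11 * (V + V') * B from
    fin_bd hX0 hy h.1 h.2
  have hBe : 0 ≤ 560 * B * Real.exp 11 := by positivity
  cases r with
  | true =>
    obtain ⟨hd, hdb⟩ := hS.real rfl
    have hGs : ∀ x : ℝ, g x ≠ 0 → 1 / 2 ≤ ‖x‖ ∧ ‖x‖ ≤ 3 := fun x hx => by
      have := hS.supp x (fun _ => ofReal_im x) hx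
      simpa using this
    have hGb : ∀ x : ℝ, ‖g x‖ ≤ B := fun x => hS.bound x (fun _ => ofReal_im x)
    have hdiff : Differentiable ℝ (fun x : ℝ => g x) := hd.differentiable one_ne_zero
    have hDb : ∀ x : ℝ, ‖fderiv ℝ (fun x : ℝ => g x) x 1‖ ≤ B := fun x => by
      rw [fderiv_apply_one_eq_deriv]
      exact hdb x
    have hb0 : ∀ i, (b i).im = 0 := fun i => hPt.real i rfl
    obtain ⟨i1, z1⟩ := line_zero (volume : Measure ℝ) ofRealCLM (fun x => by simp) k μ b hQ.re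
      hPt.le B hB (fun x : ℝ => g x) hdiff hGb hGs 1 (by simp) hDb
    have hc := core (volume : Measure ℝ) (fun x : ℝ => (x : ℂ)) Complex.measurable_ofReal
      (fun x => by simp) k μ b hQ.re hPt.le B hB (fun x : ℝ => g x)
      (fun x => fderiv ℝ (fun x : ℝ => g x) x 1) hdiff.continuous.measurable
      (measurable_fderiv_apply_const ℝ _ 1) hGb hGs (fun x => (hDb x).trans (by linarith))
      (fun x hx => far (fun x : ℝ => g x) hGs x 1 hx) 1 (by simp) (I * (μ.im : ℂ))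
      (by
        rw [← z1]
        refine integral_congr_ae (Eventually.of_forall fun x => ?_)
        simp only [dF, ofRealCLM_apply, ofReal_one]
        rw [dS_real k μ b x hb0 (ofReal_im x) h02]
        ring)
    have hX : X = ‖∫ x : ℝ, g x * g4 k μ b x‖ := by
      rw [hXd]
      congr 1
      unfold mz
      simp only [if_true]
      have h : MeasurableEmbedding (fun x : ℝ => (x : ℂ)) :=
        Complex.isometry_ofReal.isClosedEmbedding.measurableEmbedding
      exact h.integral_map _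
    rw [← hX, ← hV] at hc
    obtain ⟨c1, c2⟩ := hc
    have hκ : ‖I * (μ.im : ℂ)‖ = |μ.im| := by simp
    rw [hκ] at c2
    have hk : |(k : ℝ)| ≤ 1 := by
      rcases hQ.real rfl with h | h <;> simp [h]
    have hVV : 560 * B * Real.exp 11 * V ≤ 560 * B * Real.exp 11 * (V + V') :=
      mul_le_mul_of_nonneg_left (by linarith) hBe
    have hVp : 0 ≤ 560 * B * Real.exp 11 * (V + V') := mul_nonneg hBe (by linarith)
    constructor
    · linarith
    · have : X * (cc k μ * ‖b 1 - b 3‖) =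
          (1 + |(k : ℝ)|) * ‖b 1 - b 3‖ * X + |μ.im| * ‖b 1 - b 3‖ * X := by
        unfold cc
        ring
      rw [this]
      have h3 : (1 + |(k : ℝ)|) * ‖b 1 - b 3‖ ≤ 1 := by nlinarith [abs_nonneg (k : ℝ)]
      have h4 : (1 + |(k : ℝ)|) * ‖b 1 - b 3‖ * X ≤ X := mul_le_of_le_one_left hX0 h3
      linarith
  | false =>
    obtain ⟨hd, hdb⟩ := hS.cplx rfl
    have hR : ∀ z, Rl false z := fun z h => absurd h (by simp)
    have hGs : ∀ x : ℂ, g x ≠ 0 → 1 / 2 ≤ ‖x‖ ∧ ‖x‖ ≤ 3 := fun x hx => hS.supp x (hR x) hx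
    have hGb : ∀ x : ℂ, ‖g x‖ ≤ B := fun x => hS.bound x (hR x)
    have hdiff : Differentiable ℝ g := hd.differentiable one_ne_zero
    have hDb : ∀ v : ℂ, ‖v‖ ≤ 1 → ∀ x : ℂ, ‖fderiv ℝ g x v‖ ≤ B := fun v hv x =>
      ((fderiv ℝ g x).le_opNorm v).trans ((mul_le_mul (hdb x) hv (norm_nonneg _) hB).trans
        (by linarith))
    obtain ⟨i1, z1⟩ := line_zero (volume : Measure ℂ) (ContinuousLinearMap.id ℝ ℂ)
      (fun x => by simp) k μ b hQ.re hPt.le B hB g hdiff hGb hGs 1 (by simp) (hDb 1 (by simp))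
    obtain ⟨i2, z2⟩ := line_zero (volume : Measure ℂ) (ContinuousLinearMap.id ℝ ℂ)
      (fun x => by simp) k μ b hQ.re hPt.le B hB g hdiff hGb hGs I (by simp) (hDb I (by simp))
    have hc := core (volume : Measure ℂ) (fun x : ℂ => x) measurable_id
      (fun x => rfl) k μ b hQ.re hPt.le B hB g
      (fun x => fderiv ℝ g x 1 - I * fderiv ℝ g x I) hdiff.continuous.measurable
      ((measurable_fderiv_apply_const ℝ _ 1).sub
        ((measurable_fderiv_apply_const ℝ _ I).const_mul I)) hGb hGs (fun x => by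
          refine (norm_sub_le _ _).trans ?_
          rw [norm_mul, Complex.norm_I, one_mul]
          linarith [hDb 1 (by simp) x, hDb I (by simp) x])
      (fun x hx => by
        by_cases h1 : fderiv ℝ g x 1 = 0
        · by_cases h2 : fderiv ℝ g x I = 0
          · exact absurd (by simp [h1, h2]) hx
          · exact far g hGs x I h2
        · exact far g hGs x 1 h1) 2 (by simp) ((k : ℂ) + I * (μ.im : ℂ))
      (by
        have : ∫ x, (dF (ContinuousLinearMap.id ℝ ℂ) k μ b g 1 x -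
            I * dF (ContinuousLinearMap.id ℝ ℂ) k μ b g I x) = 0 := by
          rw [integral_sub i1 (i2.const_mul I), integral_const_mul, z1, z2]
          simp
        rw [← this]
        refine integral_congr_ae (Eventually.of_forall fun x => ?_)
        simp only [dF, ContinuousLinearMap.coe_id', id_eq]
        rw [← dS_cplx k μ b x h02]
        linear_combination (g x * (((x + b 3) + (x + b 1)) * g4 k μ b x)) * Complex.I_sq)
    have hX : X = ‖∫ x : ℂ, g x * g4 k μ b x‖ := by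
      rw [hXd]
      congr 1
    rw [← hX, ← hV'] at hc
    obtain ⟨c1, c2⟩ := hc
    have hκ : |μ.im| + |(k : ℝ)| ≤ 2 * ‖(k : ℂ) + I * (μ.im : ℂ)‖ := by
      have h1 := Complex.abs_re_le_norm ((k : ℂ) + I * (μ.im : ℂ))
      have h2 := Complex.abs_im_le_norm ((k : ℂ) + I * (μ.im : ℂ))
      simp at h1 h2
      linarith
    have hVV : 560 * B * Real.exp 11 * V' ≤ 560 * B * Real.exp 11 * (V + V') :=
      mul_le_mul_of_nonneg_left (by linarith) hBe
    have hVp : 0 ≤ 560 * B * Real.exp 11 * (V + V') := mul_nonneg hBe (by linarith)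
    constructor
    · linarith
    · have : X * (cc k μ * ‖b 1 - b 3‖) =
          ‖b 1 - b 3‖ * X + (|μ.im| + |(k : ℝ)|) * (‖b 1 - b 3‖ * X) := by
        unfold cc
        ring
      rw [this]
      have h4 : ‖b 1 - b 3‖ * X ≤ X := mul_le_of_le_one_left hX0 (by linarith)
      have h5 : (|μ.im| + |(k : ℝ)|) * (‖b 1 - b 3‖ * X) ≤
          2 * ‖(k : ℂ) + I * (μ.im : ℂ)‖ * (‖b 1 - b 3‖ * X) :=
        mul_le_mul_of_nonneg_right hκ (by positivity)
      linarith

end Pool.Agent.H42.BH
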